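import Pool.Agent.Helper48.AX.Defs

/-! Module HB of MP_efd95c_co: the gap after an arc. -/

set_option autoImplicit false

open Complex Filter Topology

noncomputable section

namespace AX

lemma hb_e_re (θ : ℝ) : (e θ).re = Real.cos θ := by
  unfold e
  rw [Complex.exp_ofReal_mul_I_re]

lemma hb_e_im (θ : ℝ) : (e θ).im = Real.sin θ := by
  unfold e
  rw [Complex.exp_ofReal_mul_I_im]

lemma hb_e_add (a b : ℝ) : e (a + b) = e a * e b := by
  unfold e
  rw [Complex.ofReal_add, add_mul, Complex.exp_add]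

lemma hb_e_norm (a : ℝ) : ‖e a‖ = 1 := by
  unfold e
  exact Complex.norm_exp_ofReal_mul_I a

lemma hb_conj_mul (a : ℝ) : (starRingEnd ℂ) (e a) * e a = 1 := by
  rw [← Complex.normSq_eq_conj_mul_self, Complex.normSq_eq_norm_sq, hb_e_norm]
  norm_num

lemma hb_dist_le {x c : ℂ} {r : ℝ} (hr : 0 < r) (h : ‖x - c‖ ≤ r) (y : ℂ) (θ : ℝ)
    (hc : c = y - (r : ℂ) * e θ) :
    ((x - y).re ^ 2 + (x - y).im ^ 2) + 2 * r * ((x - y).re * Real.cos θ
      + (x - y).im * Real.sin θ) ≤ 0 := by
  have h1 : ‖x - c‖ ^ 2 ≤ r ^ 2 := by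
    have := norm_nonneg (x - c)
    nlinarith
  rw [← Complex.normSq_eq_norm_sq, Complex.normSq_apply, hc] at h1
  simp only [Complex.sub_re, Complex.sub_im, Complex.mul_re, Complex.mul_im, Complex.ofReal_re,
    Complex.ofReal_im, hb_e_re, hb_e_im, zero_mul, sub_zero, add_zero] at h1 ⊢
  have h2 := Real.sin_sq_add_cos_sq θ
  nlinarith

/-- an active pair determines `dl` -/
lemma hb_dl {r s b : ℝ} {ci cj : ℂ} (hr : 0 < r) (hs0 : 0 < s) (hs : s ≤ Real.pi / 2)
    (h : ci + (r : ℂ) * e b = cj + (r : ℂ) * e (b + 2 * s)) : dl r ci cj = s := by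
  have hsin : 0 ≤ Real.sin s := Real.sin_nonneg_of_nonneg_of_le_pi hs0.le (by linarith [Real.pi_pos])
  have h1 : dist ci cj = 2 * r * Real.sin s := by
    rw [Complex.dist_eq]
    have h2 : ci - cj = (r : ℂ) * e b * (e (2 * s) - 1) := by
      rw [hb_e_add] at h
      linear_combination h
    have h3 : ‖ci - cj‖ ^ 2 = (2 * r * Real.sin s) ^ 2 := by
      rw [h2, norm_mul, norm_mul, hb_e_norm, Complex.norm_real, Real.norm_eq_abs, mul_one,
        mul_pow, sq_abs, ← Complex.normSq_eq_norm_sq (e (2 * s) - 1), Complex.normSq_apply]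
      simp only [Complex.sub_re, Complex.sub_im, hb_e_re, hb_e_im, Complex.one_re, Complex.one_im,
        sub_zero, Real.cos_two_mul, Real.sin_two_mul]
      have h4 := Real.sin_sq_add_cos_sq s
      linear_combination (4 * r ^ 2 * (Real.cos s ^ 2 - 1)) * h4
    exact (pow_left_inj₀ (norm_nonneg _) (by positivity) two_ne_zero).1 h3
  unfold dl
  rw [h1, mul_comm (2 * r), mul_div_assoc, div_self (by positivity), mul_one]
  exact Real.arcsin_sin (by linarith [Real.pi_pos]) hs

/-- the point `x` is the only point of the gap -/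
lemma hb_gap {r s b θ : ℝ} (hs : s ≤ Real.pi / 2) (h1 : b < θ)
    (h2 : θ < b + 2 * s) {z : ℂ} (hr : 0 < r)
    (ha : (z.re ^ 2 + z.im ^ 2) + 2 * r * (z.re * Real.cos b + z.im * Real.sin b) ≤ 0)
    (hb : (z.re ^ 2 + z.im ^ 2) + 2 * r * (z.re * Real.cos (b + 2 * s)
      + z.im * Real.sin (b + 2 * s)) ≤ 0)
    (hc : (z.re ^ 2 + z.im ^ 2) - 2 * r * (z.re * Real.cos θ + z.im * Real.sin θ) ≤ 0) :
    z = 0 := by
  by_contra hz
  have hpos : 0 < z.re ^ 2 + z.im ^ 2 := by
    rcases (not_and_or.1 (fun h => hz (Complex.ext h.1 h.2)) : ¬ z.re = 0 ∨ ¬ z.im = 0) with h | h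
    · have := sq_pos_of_ne_zero h
      nlinarith [sq_nonneg z.im]
    · have := sq_pos_of_ne_zero h
      nlinarith [sq_nonneg z.re]
  set A := z.re * Real.cos b + z.im * Real.sin b with hA
  set B := z.re * Real.cos (b + 2 * s) + z.im * Real.sin (b + 2 * s) with hB
  set T := z.re * Real.cos θ + z.im * Real.sin θ with hT
  have hA' : A < 0 := by
    by_contra hh
    push Not at hh
    have : 0 ≤ 2 * r * A := by positivity
    linarith
  have hB' : B < 0 := by
    by_contra hh
    push Not at hh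
    have : 0 ≤ 2 * r * B := by positivity
    linarith
  have hT' : 0 < T := by
    by_contra hh
    push Not at hh
    have : 0 ≤ 2 * r * (-T) := mul_nonneg (by positivity) (by linarith)
    linarith
  have hid : Real.sin (b + 2 * s - b) * T = Real.sin (b + 2 * s - θ) * A
      + Real.sin (θ - b) * B := by
    rw [hA, hB, hT, Real.sin_sub, Real.sin_sub, Real.sin_sub]
    ring
  have e1 : 0 ≤ Real.sin (b + 2 * s - b) :=
    Real.sin_nonneg_of_nonneg_of_le_pi (by linarith) (by linarith)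
  have e2 : 0 < Real.sin (b + 2 * s - θ) :=
    Real.sin_pos_of_pos_of_lt_pi (by linarith) (by linarith)
  have e3 : 0 < Real.sin (θ - b) :=
    Real.sin_pos_of_pos_of_lt_pi (by linarith) (by linarith)
  nlinarith [mul_nonneg e1 hT'.le, mul_neg_of_pos_of_neg e2 hA', mul_neg_of_pos_of_neg e3 hB']

/-- the first point which becomes active -/
lemma hb_exists {r b : ℝ} (hr : 0 < r) {v : ℂ} (hv : v ≠ 0)
    (h0 : ‖v‖ ^ 2 ≤ 2 * r * (v * (starRingEnd ℂ) (e b)).re)
    (hf : ∃ᶠ θ in 𝓝[>] b, ¬ ‖v‖ ^ 2 ≤ 2 * r * (v * (starRingEnd ℂ) (e θ)).re) :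
    ∃ s, 0 < s ∧ s ≤ Real.pi / 2 ∧ v = (r : ℂ) * e b - (r : ℂ) * e (b + 2 * s) := by
  set w : ℂ := v * (starRingEnd ℂ) (e b) with hw
  have hvw : v = w * e b := by
    rw [hw, mul_assoc, hb_conj_mul, mul_one]
  have hwn : ‖v‖ = ‖w‖ := by
    rw [hvw, norm_mul, hb_e_norm, mul_one]
  have hG : ∀ θ, (v * (starRingEnd ℂ) (e θ)).re = w.re * Real.cos (θ - b)
      + w.im * Real.sin (θ - b) := by
    intro θ
    have h1 : e θ = e b * e (θ - b) := by
      rw [← hb_e_add]; congr 1; ring
    rw [h1, map_mul, ← mul_assoc, ← hw, Complex.mul_re, Complex.conj_re, Complex.conj_im,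
      hb_e_re, hb_e_im]
    ring
  have hn2 : ‖v‖ ^ 2 = w.re ^ 2 + w.im ^ 2 := by
    rw [hwn, ← Complex.normSq_eq_norm_sq, Complex.normSq_apply]; ring
  simp only [hG, hn2] at hf
  rw [hn2] at h0
  -- first: equality at `b`
  have heq : w.re ^ 2 + w.im ^ 2 = 2 * r * w.re := by
    refine le_antisymm h0 ?_
    by_contra hlt
    push Not at hlt
    apply hf
    have hcont : Continuous (fun θ : ℝ => 2 * r * (w.re * Real.cos (θ - b)
        + w.im * Real.sin (θ - b))) := by fun_prop
    have h2 : w.re ^ 2 + w.im ^ 2 < (fun θ : ℝ => 2 * r * (w.re * Real.cos (θ - b)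
        + w.im * Real.sin (θ - b))) b := by
      simpa using hlt
    have h3 := (hcont.tendsto b).eventually (lt_mem_nhds h2)
    filter_upwards [mem_nhdsWithin_of_mem_nhds h3] with θ hθ
    rw [not_not]
    exact hθ.le
  have him : w.im ≤ 0 := by
    by_contra hpos
    push Not at hpos
    apply hf
    have hcont : Continuous (fun θ : ℝ => w.im * Real.cos ((θ - b) / 2)
        - w.re * Real.sin ((θ - b) / 2)) := by fun_prop
    have h2 : 0 < (fun θ : ℝ => w.im * Real.cos ((θ - b) / 2)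
        - w.re * Real.sin ((θ - b) / 2)) b := by
      simpa using hpos
    have h3 := (hcont.tendsto b).eventually (lt_mem_nhds h2)
    have h4 : ∀ᶠ θ in 𝓝[>] b, θ < b + 2 * Real.pi :=
      mem_nhdsWithin_of_mem_nhds (gt_mem_nhds (by linarith [Real.pi_pos]))
    filter_upwards [mem_nhdsWithin_of_mem_nhds h3, h4, self_mem_nhdsWithin] with θ hθ hθ2 hθ3
    rw [not_not]
    have hθ3' : b < θ := hθ3
    have h5 : 0 < Real.sin ((θ - b) / 2) :=
      Real.sin_pos_of_pos_of_lt_pi (by linarith) (by linarith)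
    have h6 : Real.cos (θ - b) = 1 - 2 * Real.sin ((θ - b) / 2) ^ 2 := by
      have h7 : θ - b = 2 * ((θ - b) / 2) := by ring
      rw [h7, Real.cos_two_mul]
      have := Real.sin_sq_add_cos_sq ((θ - b) / 2)
      rw [← h7]
      linarith
    have h8 : Real.sin (θ - b) = 2 * Real.sin ((θ - b) / 2) * Real.cos ((θ - b) / 2) := by
      have h7 : θ - b = 2 * ((θ - b) / 2) := by ring
      rw [h7, Real.sin_two_mul, ← h7]
    have h9 : 0 < 2 * r * (2 * Real.sin ((θ - b) / 2) * (w.im * Real.cos ((θ - b) / 2)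
        - w.re * Real.sin ((θ - b) / 2))) :=
      mul_pos (by positivity) (mul_pos (by positivity) hθ)
    rw [h6, h8, heq]
    nlinarith
  -- the angle
  have hd0 : 0 < ‖w‖ := by
    rw [← hwn]; exact norm_pos_iff.2 hv
  have hd2 : ‖w‖ ^ 2 = w.re ^ 2 + w.im ^ 2 := by rw [← hwn, hn2]
  have hre : 0 < w.re := by
    have : 0 < 2 * r * w.re := by rw [← heq, ← hd2]; positivity
    exact pos_of_mul_pos_right this (by positivity)
  have hdle : ‖w‖ ≤ 2 * r := by
    have h1 : w.re ≤ ‖w‖ := Complex.re_le_norm w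
    have h2 : ‖w‖ ^ 2 ≤ 2 * r * ‖w‖ := by
      rw [hd2, heq]
      exact mul_le_mul_of_nonneg_left h1 (by positivity)
    nlinarith
  refine ⟨Real.arcsin (‖w‖ / (2 * r)), Real.arcsin_pos.2 (by positivity),
    Real.arcsin_le_pi_div_two _, ?_⟩
  set s := Real.arcsin (‖w‖ / (2 * r)) with hs
  have hsin : Real.sin s = ‖w‖ / (2 * r) := by
    rw [hs, Real.sin_arcsin]
    · have : 0 ≤ ‖w‖ / (2 * r) := by positivity
      linarith
    · rw [div_le_one (by positivity)]; exact hdle
  have hcos : 0 ≤ Real.cos s := Real.cos_nonneg_of_mem_Icc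
    ⟨Real.neg_pi_div_two_le_arcsin _, Real.arcsin_le_pi_div_two _⟩
  have hwn' : ‖w‖ = 2 * r * Real.sin s := by
    rw [hsin]; field_simp
  have hsc := Real.sin_sq_add_cos_sq s
  have hre' : w.re = 2 * r * Real.sin s ^ 2 := by
    have h1 : 2 * r * w.re = (2 * r * Real.sin s) ^ 2 := by rw [← heq, ← hd2, hwn']
    have h2 : 2 * r * (w.re - 2 * r * Real.sin s ^ 2) = 0 := by linear_combination h1
    have h3 : (2 * r) ≠ 0 := by positivity
    have := (mul_eq_zero.1 h2).resolve_left h3
    linarith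
  have hsin0 : 0 < Real.sin s := by rw [hsin]; positivity
  have him' : w.im = -(2 * r * Real.sin s * Real.cos s) := by
    have h1 : w.im ^ 2 = (2 * r * Real.sin s * Real.cos s) ^ 2 := by
      have h2 : (2 * r * Real.sin s) ^ 2 = w.re ^ 2 + w.im ^ 2 := by rw [← hd2, hwn']
      rw [hre'] at h2
      linear_combination (-h2) - (4 * r ^ 2 * Real.sin s ^ 2) * hsc
    have h3 : (-w.im) ^ 2 = (2 * r * Real.sin s * Real.cos s) ^ 2 := by rw [neg_sq, h1]
    have h4 := (pow_left_inj₀ (by linarith) (by positivity) two_ne_zero).1 h3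
    linarith
  have hwe : w = (r : ℂ) * (1 - e (2 * s)) := by
    apply Complex.ext
    · rw [Complex.re_ofReal_mul, Complex.sub_re, Complex.one_re, hb_e_re, Real.cos_two_mul, hre']
      linear_combination 2 * r * hsc
    · rw [Complex.im_ofReal_mul, Complex.sub_im, Complex.one_im, hb_e_im, Real.sin_two_mul, him']
      ring
  rw [hvw, hwe, hb_e_add]
  ring

theorem st_HB (hT : ST_TSUP) : ST_HB := by
  intro n r c i b hr hinj hb hgap
  obtain ⟨δ, hδ, hgap⟩ := hgap
  have hT' := fun i θ => hT (n + 2) r c i θ hr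
  -- some disk becomes active
  have hex : ∃ j, ∃ᶠ θ in 𝓝[>] b, ¬ Sup r (c i) θ (c j) := by
    by_contra hno
    push Not at hno
    have h1 : ∀ᶠ θ in 𝓝[>] b, ∀ j, Sup r (c i) θ (c j) := by
      rw [eventually_all]
      intro j
      have := hno j
      simpa [Filter.Frequently] using this
    have h2 : ∀ᶠ θ in 𝓝[>] b, θ < b + δ :=
      mem_nhdsWithin_of_mem_nhds (gt_mem_nhds (by linarith))
    obtain ⟨θ, h3, h4, h5⟩ := (h1.and (h2.and self_mem_nhdsWithin)).exists
    exact hgap θ h5 h4 ((hT' i θ).2 h3)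
  have hact : ∃ j, j ≠ i ∧ ∃ s, 0 < s ∧ s ≤ Real.pi / 2 ∧
      c i + (r : ℂ) * e b = c j + (r : ℂ) * e (b + 2 * s) := by
    obtain ⟨j, hj⟩ := hex
    have hji : j ≠ i := by
      rintro rfl
      apply hj
      filter_upwards with θ
      rw [not_not]
      unfold Sup
      simp
    have hv : c j - c i ≠ 0 := sub_ne_zero.2 (fun h => hji (hinj h))
    have hnd : ‖c j - c i‖ = dist (c i) (c j) := by
      rw [dist_comm, Complex.dist_eq]
    obtain ⟨s, h1, h2, h3⟩ := hb_exists hr hv (b := b)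
      (by rw [hnd]; exact (hT' i b).1 hb j) (by rw [hnd]; exact hj)
    exact ⟨j, hji, s, h1, h2, by linear_combination -h3⟩
  -- choose the active disk with the smallest angle
  classical
  let A : Finset (Fin (n + 2)) := Finset.univ.filter (fun j => j ≠ i ∧ ∃ s, 0 < s ∧
    s ≤ Real.pi / 2 ∧ c i + (r : ℂ) * e b = c j + (r : ℂ) * e (b + 2 * s))
  have hA : A.Nonempty := by
    obtain ⟨j, hj⟩ := hact
    exact ⟨j, Finset.mem_filter.2 ⟨Finset.mem_univ _, hj⟩⟩
  obtain ⟨j, hjA, hmin⟩ := Finset.exists_min_image A (fun j => dl r (c i) (c j)) hA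
  obtain ⟨_, hji, s, hs0, hs, hcc⟩ := Finset.mem_filter.1 hjA
  have hdl := hb_dl hr hs0 hs hcc
  have hKb : ∀ k, ‖(c i + (r : ℂ) * e b) - c k‖ ≤ r := by
    intro k
    have h1 : c i + (r : ℂ) * e b ∈ K r c := hb
    have := Set.mem_iInter.1 h1 k
    rwa [Metric.mem_closedBall, Complex.dist_eq] at this
  refine ⟨j, hji, ?_, ?_⟩
  · rw [hdl]
    change c j + (r : ℂ) * e (b + 2 * s) ∈ K r c
    rw [← hcc]
    exact hb
  · intro k θ hθ
    rw [hdl]
    rintro ⟨h1, h2⟩
    have hKθ : ∀ l, ‖(c k + (r : ℂ) * e θ) - c l‖ ≤ r := by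
      intro l
      have h1 : c k + (r : ℂ) * e θ ∈ K r c := hθ
      have := Set.mem_iInter.1 h1 l
      rwa [Metric.mem_closedBall, Complex.dist_eq] at this
    set x := c i + (r : ℂ) * e b with hx
    set y := c k + (r : ℂ) * e θ with hy
    have ha := hb_dist_le hr (hKθ i) x b (by rw [hx]; ring)
    have hb' := hb_dist_le hr (hKθ j) x (b + 2 * s) (by rw [hcc]; ring)
    have hc' := hb_dist_le hr (hKb k) y θ (by rw [hy]; ring)
    have hz : y - x = 0 := by
      refine hb_gap hs h1 h2 hr ha hb' ?_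
      simp only [Complex.sub_re, Complex.sub_im] at hc' ⊢
      nlinarith
    have hxy : x = y := (sub_eq_zero.1 hz).symm
    have hs' : θ = b + 2 * ((θ - b) / 2) := by ring
    have hk : c i + (r : ℂ) * e b = c k + (r : ℂ) * e (b + 2 * ((θ - b) / 2)) := by
      rw [← hs']; exact hxy
    have hki : k ≠ i := by
      rintro rfl
      have h3 : (r : ℂ) * e b = (r : ℂ) * e θ := add_left_cancel (by rw [← hx, hxy])
      have h4 : e b = e θ := mul_left_cancel₀ (by exact_mod_cast hr.ne') h3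
      have h5 : Real.cos (θ - b) = 1 := by
        have h6 : e (θ - b) = 1 := by
          have h7 : e θ = e b * e (θ - b) := by rw [← hb_e_add]; congr 1; ring
          rw [← h4] at h7
          have h8 : e b ≠ 0 := by
            rw [← norm_pos_iff, hb_e_norm]; norm_num
          exact mul_left_cancel₀ h8 (by rw [← h7, mul_one])
        rw [← hb_e_re, h6, Complex.one_re]
      have h9 : Real.cos (θ - b) < 1 := by
        have h10 : 0 < Real.sin ((θ - b) / 2) :=
          Real.sin_pos_of_pos_of_lt_pi (by linarith) (by linarith)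
        have h7 : θ - b = 2 * ((θ - b) / 2) := by ring
        rw [h7, Real.cos_two_mul]
        have := Real.sin_sq_add_cos_sq ((θ - b) / 2)
        nlinarith
      linarith
    have hkA : k ∈ A := Finset.mem_filter.2 ⟨Finset.mem_univ _, hki, (θ - b) / 2, by linarith,
      by linarith, hk⟩
    have hm := hmin k hkA
    rw [hdl, hb_dl hr (by linarith) (by linarith) hk] at hm
    linarith

end AX
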