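import Pool.Agent.Helper48.AX.Defs

/-! Module KAL of MP_efd95c_co: the identity tour is shortest for a Kalmanson metric. -/

set_option autoImplicit false

noncomputable section

namespace AX

/-- the tour as a sum over the cyclic group -/
lemma kal_tour_eq {ι : Type} (D : ι → ι → ℝ) {m : ℕ} (f : Fin (m + 1) → ι) :
    tour D f = ∑ k : Fin (m + 1), D (f k) (f (k + 1)) := by
  unfold tour
  rw [Fin.sum_univ_castSucc]
  congr 1
  · refine Finset.sum_congr rfl (fun k _ => ?_)
    rw [Fin.coeSucc_eq_succ]
  · rw [Fin.last_add_one]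

/-- rotation invariance -/
lemma kal_rot {ι : Type} (D : ι → ι → ℝ) {m : ℕ} (f : Fin (m + 1) → ι) (c : Fin (m + 1)) :
    tour D (fun k => f (k + c)) = tour D f := by
  rw [kal_tour_eq, kal_tour_eq]
  have h := Equiv.sum_comp (Equiv.addRight c) (fun k => D (f k) (f (k + 1)))
  rw [← h]
  refine Finset.sum_congr rfl (fun k _ => ?_)
  simp only [Equiv.coe_addRight]
  rw [add_right_comm]

/-- removing the last point -/
lemma kal_rem {ι : Type} (D : ι → ι → ℝ) {m : ℕ} (f : Fin (m + 2) → ι) :
    tour D f = tour D (fun k : Fin (m + 1) => f k.castSucc)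
      - D (f (Fin.last m).castSucc) (f 0)
      + D (f (Fin.last m).castSucc) (f (Fin.last (m + 1))) + D (f (Fin.last (m + 1))) (f 0) := by
  unfold tour
  rw [Fin.sum_univ_castSucc]
  have h1 : ∀ k : Fin m, D (f k.castSucc.castSucc) (f k.castSucc.succ)
      = D (f k.castSucc.castSucc) (f k.succ.castSucc) := by
    intro k
    rw [Fin.succ_castSucc]
  simp only [h1, Fin.castSucc_zero, Fin.succ_last]
  ring

/-- the insertion inequality -/
lemma kal_ins {m : ℕ} (D : Fin (m + 2) → Fin (m + 2) → ℝ) (hs : ∀ i j, D i j = D j i)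
    (hK : ∀ i j k l, i < j → j < k → k < l →
      D i j + D k l ≤ D i k + D j l ∧ D i l + D j k ≤ D i k + D j l)
    (i j : Fin (m + 1)) (hij : i < j) :
    D (Fin.last m).castSucc (Fin.last (m + 1)) + D (Fin.last (m + 1)) 0
      - D (Fin.last m).castSucc 0 ≤
    D i.castSucc (Fin.last (m + 1)) + D (Fin.last (m + 1)) j.castSucc
      - D i.castSucc j.castSucc := by
  have hij' : i.castSucc < j.castSucc := by
    rw [Fin.castSucc_lt_castSucc_iff]; exact hij
  have h1 : D 0 (Fin.last (m + 1)) + D i.castSucc j.castSucc ≤
      D 0 j.castSucc + D i.castSucc (Fin.last (m + 1)) := by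
    rcases (Fin.zero_le i.castSucc).eq_or_lt with h | h
    · rw [← h]; linarith
    · exact (hK 0 i.castSucc j.castSucc (Fin.last (m + 1)) h hij' (Fin.castSucc_lt_last j)).2
  have h2 : D 0 j.castSucc + D (Fin.last m).castSucc (Fin.last (m + 1)) ≤
      D 0 (Fin.last m).castSucc + D j.castSucc (Fin.last (m + 1)) := by
    rcases (Fin.le_last j).eq_or_lt with h | h
    · rw [h]
    · have h3 : (0 : Fin (m + 2)) < j.castSucc := lt_of_le_of_lt (Fin.zero_le _) hij'
      have h4 : j.castSucc < (Fin.last m).castSucc := by
        rw [Fin.castSucc_lt_castSucc_iff]; exact h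
      exact (hK 0 j.castSucc (Fin.last m).castSucc (Fin.last (m + 1)) h3 h4
        (Fin.castSucc_lt_last _)).1
  rw [hs (Fin.last (m + 1)) 0, hs (Fin.last (m + 1)) j.castSucc, hs (Fin.last m).castSucc 0]
  linarith

lemma kal_main : ∀ (m : ℕ) (D : Fin (m + 1) → Fin (m + 1) → ℝ), (∀ i j, D i j = D j i) →
    (∀ i j k l, i < j → j < k → k < l →
      D i j + D k l ≤ D i k + D j l ∧ D i l + D j k ≤ D i k + D j l) →
    ∀ f : Fin (m + 1) → Fin (m + 1), Function.Injective f → tour D (fun i => i) ≤ tour D f := by
  intro m
  induction m with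
  | zero =>
    intro D hs hK f hf
    have : f = fun i => i := by
      funext i
      exact Fin.ext (by have := (f i).2; have := i.2; omega)
    rw [this]
  | succ m ih =>
    intro D hs hK f hf
    obtain ⟨k0, hk0⟩ := (Finite.surjective_of_injective hf) (Fin.last (m + 1))
    -- rotate
    set c := k0 - Fin.last (m + 1) with hc
    set f' : Fin (m + 2) → Fin (m + 2) := fun k => f (k + c) with hf'
    have hf'inj : Function.Injective f' := fun a b hab => add_right_cancel (hf hab)
    have hf'last : f' (Fin.last (m + 1)) = Fin.last (m + 1) := by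
      rw [hf', hc]
      simp only
      rw [add_sub_cancel, hk0]
    rw [← kal_rot D f c]
    change _ ≤ tour D f'
    have hne : ∀ k : Fin (m + 1), f' k.castSucc ≠ Fin.last (m + 1) := by
      intro k h
      rw [← hf'last] at h
      exact (Fin.castSucc_lt_last k).ne (hf'inj h)
    set g : Fin (m + 1) → Fin (m + 1) := fun k => (f' k.castSucc).castPred (hne k) with hg
    have hg' : ∀ k, (g k).castSucc = f' k.castSucc := fun k => Fin.castSucc_castPred _ _
    have hginj : Function.Injective g := by
      intro a b hab
      have h1 : f' a.castSucc = f' b.castSucc := by rw [← hg', ← hg', hab]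
      exact Fin.castSucc_injective _ (hf'inj h1)
    have hih := ih (fun i j => D i.castSucc j.castSucc) (fun i j => hs _ _)
      (fun i j k l hij hjk hkl => hK _ _ _ _ (Fin.castSucc_lt_castSucc_iff.2 hij)
        (Fin.castSucc_lt_castSucc_iff.2 hjk) (Fin.castSucc_lt_castSucc_iff.2 hkl)) g hginj
    rw [kal_rem D f', kal_rem D (fun i => i)]
    have e1 : tour D (fun k : Fin (m + 1) => f' k.castSucc)
        = tour (fun i j => D i.castSucc j.castSucc) g := by
      unfold tour
      simp only [hg']
    have e2 : tour D (fun k : Fin (m + 1) => k.castSucc)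
        = tour (fun i j : Fin (m + 1) => D i.castSucc j.castSucc) (fun i => i) := rfl
    rw [e1, e2]
    have h0 : f' 0 = (g 0).castSucc := by rw [hg', Fin.castSucc_zero]
    have hl : f' (Fin.last m).castSucc = (g (Fin.last m)).castSucc := (hg' _).symm
    rw [hf'last, h0, hl]
    have hins : D (Fin.last m).castSucc (Fin.last (m + 1)) + D (Fin.last (m + 1)) 0
        - D (Fin.last m).castSucc 0 ≤
        D (g (Fin.last m)).castSucc (Fin.last (m + 1)) + D (Fin.last (m + 1)) (g 0).castSucc
        - D (g (Fin.last m)).castSucc (g 0).castSucc := by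
      rcases lt_trichotomy (g (Fin.last m)) (g 0) with h | h | h
      · exact kal_ins D hs hK _ _ h
      · have h2 : Fin.last m = 0 := hginj h
        have h3 : m = 0 := by
          have := congrArg Fin.val h2
          simpa using this
        subst h3
        have h4 : g 0 = 0 := Fin.ext (by have := (g 0).2; simp)
        have h5 : g (Fin.last 0) = 0 := Fin.ext (by have := (g (Fin.last 0)).2; simp)
        have h6 : Fin.last 0 = 0 := rfl
        rw [h5, h4, h6]
        simp only [Fin.castSucc_zero]
        exact le_rfl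
      · have := kal_ins D hs hK _ _ h
        rw [hs (g 0).castSucc (g (Fin.last m)).castSucc, hs (g 0).castSucc (Fin.last (m + 1)),
          hs (Fin.last (m + 1)) (g (Fin.last m)).castSucc] at this
        linarith
    linarith

theorem st_KAL : ST_KAL := fun m D hs hK f hf => kal_main m D hs hK f hf

end AX
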